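import Pool.Agent.H912R3.LF.Crt

set_option autoImplicit false
set_option maxHeartbeats 4000000

/-! # The exceptional primes for sums of two squares -/

namespace Pool.Agent.H912R3.GM

open Finset Pool.Agent.H256R2.SC Pool.Agent.H256R2.SC.G3

open scoped Classical

/-- the resultant of `(n + a) ^ 2 + b ^ 2` and `(n + c) ^ 2 + d ^ 2` -/
def res (x y : ℤ × ℕ) : ℤ :=
  ((x.1 - y.1) ^ 2 + ((x.2 : ℤ) - y.2) ^ 2) * ((x.1 - y.1) ^ 2 + ((x.2 : ℤ) + y.2) ^ 2)

theorem res_ne {x y : ℤ × ℕ} (hx : 1 ≤ x.2) (hxy : x ≠ y) : res x y ≠ 0 := by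
  unfold res
  intro h
  have hx0 : (1 : ℤ) ≤ x.2 := by exact_mod_cast hx
  have hy0 : (0 : ℤ) ≤ y.2 := by positivity
  rcases mul_eq_zero.1 h with h1 | h1
  · apply hxy
    have h2 : (x.1 - y.1) ^ 2 = 0 := by nlinarith [sq_nonneg (x.1 - y.1), sq_nonneg ((x.2 : ℤ) - y.2)]
    have h3 : ((x.2 : ℤ) - y.2) ^ 2 = 0 := by nlinarith [sq_nonneg (x.1 - y.1), sq_nonneg ((x.2 : ℤ) - y.2)]
    have h4 := pow_eq_zero_iff (two_ne_zero) |>.1 h2
    have h5 := pow_eq_zero_iff (two_ne_zero) |>.1 h3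
    exact Prod.ext (by linarith) (by omega)
  · nlinarith [sq_nonneg (x.1 - y.1)]

/-- a common prime divisor divides the resultant -/
theorem res_dvd {x y : ℤ × ℕ} {p n : ℤ} (h1 : p ∣ (n + x.1) ^ 2 + (x.2 : ℤ) ^ 2)
    (h2 : p ∣ (n + y.1) ^ 2 + (y.2 : ℤ) ^ 2) : p ∣ res x y := by
  obtain ⟨u, hu⟩ := h1
  obtain ⟨v, hv⟩ := h2
  unfold res
  set a := x.1
  set b : ℤ := (x.2 : ℤ)
  set c := y.1
  set d : ℤ := (y.2 : ℤ)
  -- with N = n + a, t = c - a : N² + b² = p u, (N + t)² + d² = p v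
  have e1 : 2 * (c - a) * (n + a) + (c - a) ^ 2 + d ^ 2 - b ^ 2 = p * (v - u) := by
    have : (n + c) ^ 2 + d ^ 2 - ((n + a) ^ 2 + b ^ 2) = p * (v - u) := by rw [hu, hv]; ring
    rw [← this]; ring
  have e2 : ((a - c) ^ 2 + (b - d) ^ 2) * ((a - c) ^ 2 + (b + d) ^ 2) =
      ((c - a) ^ 2 + d ^ 2 - b ^ 2) ^ 2 + 4 * (c - a) ^ 2 * b ^ 2 := by ring
  rw [e2]
  have e3 : (c - a) ^ 2 + d ^ 2 - b ^ 2 = p * (v - u) - 2 * (c - a) * (n + a) := by linarith
  rw [e3]
  have e4 : (p * (v - u) - 2 * (c - a) * (n + a)) ^ 2 + 4 * (c - a) ^ 2 * b ^ 2 =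
      p * (p * (v - u) ^ 2 - 4 * (v - u) * (c - a) * (n + a)) +
      4 * (c - a) ^ 2 * ((n + a) ^ 2 + b ^ 2) := by ring
  rw [e4, hu]
  exact dvd_add (Dvd.intro _ rfl) ((Dvd.intro _ rfl : p ∣ p * u).mul_left _)

/-- the exceptional primes -/
theorem bad_two (A : ℕ) (L : ℝ) (hL : 40 ≤ L) (U : Finset (ℤ × ℕ)) (hU : (U.card : ℝ) ≤ L)
    (h : ∀ x ∈ U, 1 ≤ x.2 ∧ |(x.1 : ℝ)| ≤ Real.exp (L ^ A) ∧ (x.2 : ℝ) ≤ Real.exp (L ^ A)) :
    ∃ B : Finset ℕ, (B.card : ℝ) ≤ L ^ (A + 3) ∧
      (∀ x ∈ U, ∀ p : ℕ, p.Prime → p ∣ x.2 → p ∈ B) ∧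
      (∀ x ∈ U, ∀ y ∈ U, x ≠ y → ∀ p : ℕ, p.Prime → (p : ℤ) ∣ res x y → p ∈ B) := by
  have hL0 : (0 : ℝ) ≤ L := by linarith
  have hLA : 1 ≤ L ^ A := one_le_pow₀ (by linarith)
  set B1 := U.biUnion (fun x => x.2.primeFactors) with hB1
  set B2 := (U ×ˢ U).biUnion (fun z => (res z.1 z.2).natAbs.primeFactors)
    with hB2
  refine ⟨B1 ∪ B2, ?_, ?_, ?_⟩
  · have c1 : (B1.card : ℝ) ≤ L * (2 * L ^ A) := by
      have h1 : (B1.card : ℝ) ≤ ∑ x ∈ U, (x.2.primeFactors.card : ℝ) := by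
        exact_mod_cast card_biUnion_le
      refine h1.trans ?_
      calc ∑ x ∈ U, (x.2.primeFactors.card : ℝ) ≤ ∑ x ∈ U, (2 * L ^ A) := by
            apply sum_le_sum
            intro x hx
            obtain ⟨h2, h4, h3⟩ := h x hx
            refine (card_primeFactors_le x.2 (by omega)).trans ?_
            have h4 : Real.log x.2 ≤ L ^ A := by
              rw [← Real.log_exp (L ^ A)]
              exact Real.log_le_log (by exact_mod_cast h2) h3
            linarith
        _ = (U.card : ℝ) * (2 * L ^ A) := by rw [sum_const, nsmul_eq_mul]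
        _ ≤ L * (2 * L ^ A) := by gcongr
    have c2 : (B2.card : ℝ) ≤ L ^ 2 * (20 * L ^ A) := by
      have h1 : (B2.card : ℝ) ≤ ∑ z ∈ U ×ˢ U,
          (((res z.1 z.2).natAbs.primeFactors).card : ℝ) := by
        exact_mod_cast card_biUnion_le
      refine h1.trans ?_
      calc ∑ z ∈ U ×ˢ U,
          (((res z.1 z.2).natAbs.primeFactors).card : ℝ) ≤
            ∑ z ∈ U ×ˢ U, (20 * L ^ A) := by
            apply sum_le_sum
            intro z hz
            rw [mem_product] at hz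
            obtain ⟨h2, h3, h4⟩ := h z.1 hz.1
            obtain ⟨g2, g3, g4⟩ := h z.2 hz.2
            by_cases h0 : (res z.1 z.2).natAbs = 0
            · rw [h0]
              simp
              linarith
            refine (card_primeFactors_le _ h0).trans ?_
            set E := Real.exp (L ^ A) with hE
            have hE2 : (2 : ℝ) ≤ E := by
              have := Real.add_one_le_exp (L ^ A)
              linarith
            have h5 : (((res z.1 z.2).natAbs : ℕ) : ℝ) ≤ Real.exp (10 * L ^ A) := by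
              have e1 : (((res z.1 z.2).natAbs : ℕ) : ℝ) =
                  |(((z.1.1 : ℝ) - z.2.1) ^ 2 + ((z.1.2 : ℝ) - z.2.2) ^ 2) *
                    (((z.1.1 : ℝ) - z.2.1) ^ 2 + ((z.1.2 : ℝ) + z.2.2) ^ 2)| := by
                rw [Nat.cast_natAbs]
                unfold res
                push_cast
                rfl
              rw [e1]
              have a0 : (0 : ℝ) ≤ z.1.2 := by positivity
              have b0 : (0 : ℝ) ≤ z.2.2 := by positivity
              have a1 : |(z.1.1 : ℝ) - z.2.1| ≤ 2 * E := (abs_sub _ _).trans (by linarith)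
              have a2 : |(z.1.2 : ℝ) - z.2.2| ≤ 2 * E := by
                rw [abs_le]; constructor <;> linarith
              have a3 : |(z.1.2 : ℝ) + z.2.2| ≤ 2 * E := by
                rw [abs_of_nonneg (by linarith)]; linarith
              have s1 : ((z.1.1 : ℝ) - z.2.1) ^ 2 ≤ (2 * E) ^ 2 := sq_le_sq' (by linarith [(abs_le.1 a1).1]) (abs_le.1 a1).2
              have s2 : ((z.1.2 : ℝ) - z.2.2) ^ 2 ≤ (2 * E) ^ 2 := sq_le_sq' (by linarith [(abs_le.1 a2).1]) (abs_le.1 a2).2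
              have s3 : ((z.1.2 : ℝ) + z.2.2) ^ 2 ≤ (2 * E) ^ 2 := sq_le_sq' (by linarith [(abs_le.1 a3).1]) (abs_le.1 a3).2
              rw [abs_of_nonneg (by positivity)]
              calc _ ≤ (8 * E ^ 2) * (8 * E ^ 2) := by
                    apply mul_le_mul (by linarith) (by linarith) (by positivity) (by positivity)
                _ = 2 ^ 6 * E ^ 4 := by ring
                _ ≤ E ^ 6 * E ^ 4 := by gcongr
                _ = Real.exp (10 * L ^ A) := by
                    rw [hE, ← pow_add, ← Real.exp_nat_mul]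
                    norm_num
            have h6 : Real.log (((res z.1 z.2).natAbs : ℕ) : ℝ) ≤
                10 * L ^ A := by
              rw [← Real.log_exp (10 * L ^ A)]
              exact Real.log_le_log (by exact_mod_cast Nat.pos_of_ne_zero h0) h5
            linarith
        _ = ((U ×ˢ U).card : ℝ) * (20 * L ^ A) := by rw [sum_const, nsmul_eq_mul]
        _ ≤ L ^ 2 * (20 * L ^ A) := by
            rw [card_product]
            push_cast
            have : (U.card : ℝ) * U.card ≤ L ^ 2 := by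
              rw [sq]
              exact mul_le_mul hU hU (Nat.cast_nonneg _) hL0
            gcongr
    have c3 : ((B1 ∪ B2).card : ℝ) ≤ B1.card + B2.card := by exact_mod_cast card_union_le _ _
    have c4 : L * (2 * L ^ A) ≤ L ^ 2 * (2 * L ^ A) := by
      have : L ≤ L ^ 2 := by nlinarith
      gcongr
    have c5 : L ^ (A + 3) = L ^ 2 * (L * L ^ A) := by ring
    rw [c5]
    have c6 : L ^ 2 * (22 * L ^ A) ≤ L ^ 2 * (L * L ^ A) := by
      have : (22 : ℝ) ≤ L := by linarith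
      gcongr
    calc ((B1 ∪ B2).card : ℝ) ≤ L ^ 2 * (22 * L ^ A) := by linarith
      _ ≤ _ := c6
  · intro x hx p hp hpx
    apply mem_union_left
    rw [hB1, mem_biUnion]
    exact ⟨x, hx, Nat.mem_primeFactors.2 ⟨hp, hpx, by have := (h x hx).1; omega⟩⟩
  · intro x hx y hy hxy p hp hd
    apply mem_union_right
    rw [hB2, mem_biUnion]
    refine ⟨(x, y), mem_product.2 ⟨hx, hy⟩, Nat.mem_primeFactors.2 ⟨hp, Int.natCast_dvd.1 hd, ?_⟩⟩
    have := res_ne (h x hx).1 hxy
    simpa using this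

end Pool.Agent.H912R3.GM
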