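import Pool.Agent.H304R2.EC.MertAbs
import Pool.Agent.H912R3.LF.Mert

set_option autoImplicit false
set_option maxHeartbeats 4000000

/-! # Mertens sums over the primes `1 mod 4` outside a small set
(the first part is copied from `H304R2.EC.RS` of helper356) -/

open Finset Filter Topology

namespace Pool.Agent.H912R3.GM

open Pool.Agent.H304R2.EC Pool.Agent.H304R2.EC.MertAbs

/-- `χ₄` as a real function -/
noncomputable def psr (n : ℕ) : ℝ := ((ZMod.χ₄ (n : ZMod 4) : ℤ) : ℝ)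

lemma psr_odd (m : ℕ) : psr (2 * m + 1) = (-1) ^ m := by
  unfold psr
  rw [ZMod.χ₄_eq_neg_one_pow (by omega), show (2 * m + 1) / 2 = m by omega]
  push_cast
  rfl

lemma psr_even (m : ℕ) : psr (2 * m) = 0 := by
  unfold psr
  rw [ZMod.χ₄_nat_eq_if_mod_four, if_pos (by omega)]
  simp

lemma psr_mul (m n : ℕ) : psr (m * n) = psr m * psr n := by
  unfold psr
  rw [Nat.cast_mul, map_mul]
  push_cast
  ring

lemma psr_abs (n : ℕ) : |psr n| ≤ 1 := by
  rcases Nat.even_or_odd' n with ⟨m, rfl | rfl⟩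
  · rw [psr_even]; simp
  · rw [psr_odd]; simp

lemma psr_sum (N : ℕ) : ∑ n ∈ Icc 1 N, psr n = if N % 4 = 1 ∨ N % 4 = 2 then 1 else 0 := by
  induction N with
  | zero => simp
  | succ N ih =>
    rw [Finset.sum_Icc_succ_top (by omega), ih]
    unfold psr
    rw [ZMod.χ₄_nat_eq_if_mod_four]
    have h4 : N % 4 = 0 ∨ N % 4 = 1 ∨ N % 4 = 2 ∨ N % 4 = 3 := by omega
    rcases h4 with h | h | h | h
    · have h1 : (N + 1) % 4 = 1 := by omega
      have h2 : (N + 1) % 2 = 1 := by omega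
      simp [h, h1, h2]
    · have h1 : (N + 1) % 4 = 2 := by omega
      have h2 : (N + 1) % 2 = 0 := by omega
      simp [h, h1, h2]
    · have h1 : (N + 1) % 4 = 3 := by omega
      have h2 : (N + 1) % 2 = 1 := by omega
      simp [h, h1, h2]
    · have h1 : (N + 1) % 4 = 0 := by omega
      have h2 : (N + 1) % 2 = 0 := by omega
      simp [h, h1, h2]

lemma psr_div_sum (N : ℕ) : ∑ n ∈ Icc 1 N, psr n / n =
    ∑ i ∈ range ((N + 1) / 2), (-1 : ℝ) ^ i / (2 * i + 1) := by
  induction N with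
  | zero => simp
  | succ N ih =>
    rw [Finset.sum_Icc_succ_top (by omega), ih]
    rcases Nat.even_or_odd' N with ⟨m, rfl | rfl⟩
    · rw [show (2 * m + 1 + 1) / 2 = m + 1 by omega, show (2 * m + 1) / 2 = m by omega,
        Finset.sum_range_succ, psr_odd]
      push_cast
      rfl
    · rw [show (2 * m + 1 + 1 + 1) / 2 = m + 1 by omega, show (2 * m + 1 + 1) / 2 = m + 1 by omega,
        show 2 * m + 1 + 1 = 2 * (m + 1) by ring, psr_even]
      simp

lemma psr_tendsto : Tendsto (fun N : ℕ => ∑ n ∈ Icc 1 N, psr n / n) atTop (𝓝 (Real.pi / 4)) := by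
  simp only [psr_div_sum]
  have h := Real.tendsto_sum_pi_div_four
  have h2 : Tendsto (fun N : ℕ => (N + 1) / 2) atTop atTop := by
    refine tendsto_atTop.mpr fun b => ?_
    filter_upwards [eventually_ge_atTop (2 * b)] with N hN
    omega
  exact h.comp h2

/-- Mertens for `χ₄` -/
lemma mert_psr : ∃ C' : ℝ, ∀ N : ℕ,
    |∑ d ∈ Icc 1 N, ArithmeticFunction.vonMangoldt d * psr d / d| ≤ C' := by
  apply mert_abs psr psr 1 (Real.pi / 4)
  · intro n
    exact (psr_abs n).trans (by norm_num)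
  · intro n hn
    have h1 : ∀ d ∈ n.divisors, ArithmeticFunction.vonMangoldt d * psr d * psr (n / d) =
        ArithmeticFunction.vonMangoldt d * psr n := by
      intro d hd
      rw [mul_assoc, ← psr_mul, Nat.mul_div_cancel' (Nat.dvd_of_mem_divisors hd)]
    rw [Finset.sum_congr rfl h1, ← Finset.sum_mul, ArithmeticFunction.vonMangoldt_sum]
    ring
  · intro N
    rw [psr_sum, one_mul]
    rcases Nat.eq_zero_or_pos N with rfl | hN
    · simp
    · have h1 : (1 : ℝ) ≤ Real.sqrt N := by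
        rw [Real.one_le_sqrt]
        exact_mod_cast hN
      split_ifs
      · simpa using h1
      · simp
  · exact psr_tendsto
  · positivity


theorem psr_one_zero : psr 0 = 0 := by
  have := psr_even 0
  simpa using this

/-- partial summation -/
theorem psr_log : ∃ C : ℝ, 0 ≤ C ∧ ∀ N : ℕ,
    |∑ d ∈ Icc 1 N, ArithmeticFunction.vonMangoldt d * psr d / d * (1 / Real.log d)| ≤ C := by
  obtain ⟨C', hC'⟩ := mert_psr
  have hC0 : 0 ≤ C' := (abs_nonneg _).trans (hC' 0)
  have hl2 : 0 < Real.log 2 := Real.log_pos (by norm_num)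
  refine ⟨C' * (1 / Real.log 2), by positivity, fun N => ?_⟩
  set a : ℕ → ℝ := fun d => ArithmeticFunction.vonMangoldt d * psr d / d with ha
  set v : ℕ → ℝ := fun d => 1 / Real.log (max d 2 : ℕ) with hv
  have hva : ∀ n, v (n + 1) ≤ v n := by
    intro n
    have h1 : (2 : ℝ) ≤ ((max n 2 : ℕ) : ℝ) := by exact_mod_cast le_max_right n 2
    have h2 : ((max n 2 : ℕ) : ℝ) ≤ ((max (n + 1) 2 : ℕ) : ℝ) := by
      exact_mod_cast max_le_max_right 2 (Nat.le_succ n)
    exact one_div_le_one_div_of_le (Real.log_pos (by linarith)) (Real.log_le_log (by linarith) h2)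
  have hv0 : ∀ n, 0 ≤ v n := by
    intro n
    have h1 : (2 : ℝ) ≤ ((max n 2 : ℕ) : ℝ) := by exact_mod_cast le_max_right n 2
    have := Real.log_nonneg (by linarith : (1 : ℝ) ≤ ((max n 2 : ℕ) : ℝ))
    simp only [hv]
    positivity
  have e0 : ∑ d ∈ Icc 1 N, a d * (1 / Real.log d) = ∑ d ∈ Icc 1 N, a d * v d := by
    apply sum_congr rfl
    intro d hd
    rcases Nat.lt_or_ge d 2 with h | h
    · have : d = 1 := by have := (mem_Icc.1 hd).1; omega
      subst this
      simp [ha]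
    · simp only [hv]
      rw [max_eq_left h]
  show |∑ d ∈ Icc 1 N, a d * (1 / Real.log d)| ≤ _
  rw [e0]
  have key : ∀ N : ℕ, ∑ n ∈ Icc 1 N, a n * v n =
      ∑ n ∈ Icc 1 N, (∑ k ∈ Icc 1 n, a k) * (v n - v (n + 1)) + (∑ k ∈ Icc 1 N, a k) * v (N + 1) :=
    fun N => Pool.Agent.H304R2.EC.MertAbs.abel a v N
  rw [key]
  have h1 : |∑ n ∈ Icc 1 N, (∑ k ∈ Icc 1 n, a k) * (v n - v (n + 1))| ≤
      ∑ n ∈ Icc 1 N, C' * (v n - v (n + 1)) := by
    refine (abs_sum_le_sum_abs _ _).trans (sum_le_sum fun n _ => ?_)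
    rw [abs_mul, abs_of_nonneg (by linarith [hva n] : 0 ≤ v n - v (n + 1))]
    exact mul_le_mul_of_nonneg_right (hC' n) (by linarith [hva n])
  have h2 : |(∑ k ∈ Icc 1 N, a k) * v (N + 1)| ≤ C' * v (N + 1) := by
    rw [abs_mul, abs_of_nonneg (hv0 _)]
    exact mul_le_mul_of_nonneg_right (hC' N) (hv0 _)
  have h3 : ∑ n ∈ Icc 1 N, (v n - v (n + 1)) = v 1 - v (N + 1) := by
    clear h1 h2 e0
    induction N with
    | zero => simp
    | succ N ih =>
      rw [Finset.sum_Icc_succ_top (by omega), ih]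
      ring
  rw [← mul_sum, h3] at h1
  have h4 : v 1 = 1 / Real.log 2 := by simp [hv]
  rw [h4] at h1
  calc _ ≤ _ := abs_add_le _ _
    _ ≤ C' * (1 / Real.log 2 - v (N + 1)) + C' * v (N + 1) := add_le_add h1 h2
    _ = _ := by ring

/-- the prime powers are negligible -/
theorem psr_primes : ∃ C : ℝ, 0 ≤ C ∧ ∀ N : ℕ,
    |∑ p ∈ (Icc 1 N).filter Nat.Prime, psr p / p| ≤ C := by
  obtain ⟨C, hC0, hC⟩ := psr_log
  have hs : Summable (fun n : ℕ => (if n.Prime then 0 else ArithmeticFunction.vonMangoldt n) / (n : ℝ)) := by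
    have h := ArithmeticFunction.vonMangoldt.summable_residueClass_non_primes_div (q := 1) 0
    refine h.congr fun n => ?_
    congr 2
    rw [ArithmeticFunction.vonMangoldt.residueClass, Set.indicator_of_mem]
    exact Subsingleton.elim _ _
  set S := ∑' n : ℕ, (if n.Prime then 0 else ArithmeticFunction.vonMangoldt n) / (n : ℝ) with hS
  have hl2 : 0 < Real.log 2 := Real.log_pos (by norm_num)
  have hnn : ∀ n : ℕ, 0 ≤ (if n.Prime then 0 else ArithmeticFunction.vonMangoldt n) / (n : ℝ) := by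
    intro n
    apply div_nonneg _ (Nat.cast_nonneg n)
    split_ifs
    · exact le_rfl
    · exact ArithmeticFunction.vonMangoldt_nonneg
  have hS0 : 0 ≤ S := tsum_nonneg hnn
  refine ⟨C + S * (1 / Real.log 2), by positivity, fun N => ?_⟩
  have h1 : ∑ p ∈ (Icc 1 N).filter Nat.Prime, psr p / p =
      ∑ d ∈ Icc 1 N, ArithmeticFunction.vonMangoldt d * psr d / d * (1 / Real.log d) -
      ∑ d ∈ Icc 1 N, (if d.Prime then 0 else ArithmeticFunction.vonMangoldt d) / (d : ℝ) *
        (psr d * (1 / Real.log d)) := by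
    rw [sum_filter, ← sum_sub_distrib]
    apply sum_congr rfl
    intro d hd
    by_cases hp : d.Prime
    · rw [if_pos hp, if_pos hp, ArithmeticFunction.vonMangoldt_apply_prime hp]
      have : 0 < Real.log d := Real.log_pos (by exact_mod_cast hp.one_lt)
      field_simp
      ring
    · rw [if_neg hp, if_neg hp]
      ring
  rw [h1]
  have h2 : |∑ d ∈ Icc 1 N, (if d.Prime then 0 else ArithmeticFunction.vonMangoldt d) / (d : ℝ) *
        (psr d * (1 / Real.log d))| ≤ S * (1 / Real.log 2) := by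
    refine (abs_sum_le_sum_abs _ _).trans ?_
    calc _ ≤ ∑ d ∈ Icc 1 N, (if d.Prime then 0 else ArithmeticFunction.vonMangoldt d) / (d : ℝ) *
          (1 / Real.log 2) := by
          apply sum_le_sum
          intro d hd
          rw [abs_mul, abs_of_nonneg (hnn d)]
          rcases Nat.lt_or_ge d 2 with h | h
          · have : d = 1 := by have := (mem_Icc.1 hd).1; omega
            subst this
            simp
          · apply mul_le_mul_of_nonneg_left _ (hnn d)
            have hd2 : (2 : ℝ) ≤ d := by exact_mod_cast h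
            have h3 : Real.log 2 ≤ Real.log d := Real.log_le_log (by norm_num) hd2
            rw [abs_mul, abs_of_nonneg (by positivity : 0 ≤ 1 / Real.log d)]
            calc |psr d| * (1 / Real.log d) ≤ 1 * (1 / Real.log 2) := by
                  apply mul_le_mul (psr_abs d) (one_div_le_one_div_of_le hl2 h3) (by positivity)
                    zero_le_one
              _ = _ := one_mul _
      _ = (∑ d ∈ Icc 1 N, (if d.Prime then 0 else ArithmeticFunction.vonMangoldt d) / (d : ℝ)) *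
          (1 / Real.log 2) := by rw [sum_mul]
      _ ≤ S * (1 / Real.log 2) := by
          apply mul_le_mul_of_nonneg_right _ (by positivity)
          exact hs.sum_le_tsum _ (fun n _ => hnn n)
  calc _ ≤ |∑ d ∈ Icc 1 N, ArithmeticFunction.vonMangoldt d * psr d / d * (1 / Real.log d)| +
        |∑ d ∈ Icc 1 N, (if d.Prime then 0 else ArithmeticFunction.vonMangoldt d) / (d : ℝ) *
        (psr d * (1 / Real.log d))| := abs_sub _ _
    _ ≤ _ := add_le_add (hC N) h2

end Pool.Agent.H912R3.GM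

namespace Pool.Agent.H912R3.GM

open Finset Pool.Agent.H256R2.SC Pool.Agent.H426R3.SQ

/-- Mertens for the primes `1 mod 4` -/
theorem mertens_four : ∃ C : ℝ, 0 ≤ C ∧ ∀ y w : ℝ, 4 ≤ y → y ≤ w →
    Real.log (Real.log w) - Real.log (Real.log y) - C ≤
      ∑ p ∈ (SP y w ∅).filter (fun p => p % 4 = 1), (2 : ℝ) / p := by
  obtain ⟨C1, hC1, h1⟩ := Pool.Agent.H912R3.LF.mertens_two
  obtain ⟨C2, hC2, h2⟩ := psr_primes
  refine ⟨C1 + 2 * C2, by positivity, fun y w hy hyw => ?_⟩
  have hy0 : (0:ℝ) ≤ y := by linarith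
  have hsplit : ∑ p ∈ (Finset.Icc 1 ⌊w⌋₊).filter Nat.Prime, psr p / p =
      ∑ p ∈ (Finset.Icc 1 ⌊y⌋₊).filter Nat.Prime, psr p / p + ∑ p ∈ SP y w ∅, psr p / p := by
    rw [← Finset.sum_union]
    · refine Finset.sum_congr ?_ fun _ _ => rfl
      ext p
      simp only [SP, mem_union, mem_filter, mem_Icc, notMem_empty, not_false_eq_true, and_true]
      constructor
      · rintro ⟨⟨h3, h4⟩, h5⟩
        by_cases h6 : p ≤ ⌊y⌋₊
        · exact Or.inl ⟨⟨h3, h6⟩, h5⟩
        · refine Or.inr ⟨⟨h3, h4⟩, h5, ?_⟩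
          exact (Nat.floor_lt hy0).mp (by omega)
      · rintro (⟨⟨h3, h4⟩, h5⟩ | ⟨⟨h3, h4⟩, h5, _⟩)
        · exact ⟨⟨h3, h4.trans (Nat.floor_le_floor hyw)⟩, h5⟩
        · exact ⟨⟨h3, h4⟩, h5⟩
    · rw [Finset.disjoint_left]
      intro p hp hp'
      simp only [SP, mem_filter, mem_Icc] at hp hp'
      have := (Nat.le_floor_iff hy0).mp hp.1.2
      linarith [hp'.2.2.1]
  have e1 : ∑ p ∈ (SP y w ∅).filter (fun p => p % 4 = 1), (2 : ℝ) / p =
      ∑ p ∈ SP y w ∅, (1 : ℝ) / p + ∑ p ∈ SP y w ∅, psr p / p := by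
    rw [sum_filter, ← sum_add_distrib]
    apply sum_congr rfl
    intro p hp
    simp only [SP, mem_filter, mem_Icc, notMem_empty, not_false_eq_true, and_true] at hp
    have hp4 : 4 < p := by
      have : (4 : ℝ) < p := by linarith [hp.2.2]
      exact_mod_cast this
    have hodd : p % 2 = 1 := by
      rcases hp.2.1.eq_two_or_odd with h | h
      · omega
      · exact h
    have hχ : psr p = if p % 4 = 1 then 1 else -1 := by
      unfold psr
      rw [ZMod.χ₄_nat_eq_if_mod_four, if_neg (by omega)]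
      split_ifs <;> simp
    rw [hχ]
    by_cases h : p % 4 = 1
    · rw [if_pos h, if_pos h]
      ring
    · rw [if_neg h, if_neg h]
      ring
  rw [e1]
  have a1 := (h1 y w hy hyw).1
  have a2 := (abs_le.1 (h2 ⌊w⌋₊)).1
  have a3 := (abs_le.1 (h2 ⌊y⌋₊)).2
  linarith

/-- Mertens for the primes `1 mod 4` outside a small set -/
theorem mertens_four_B (A : ℕ) : ∃ C : ℝ, 0 ≤ C ∧ ∃ L₀ : ℝ, ∀ L : ℝ, L₀ ≤ L → ∀ B : Finset ℕ,
    (B.card : ℝ) ≤ L ^ (A + 3) → ∀ w : ℝ, L ^ 3 ≤ w →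
      Real.log (Real.log w) - Real.log (Real.log (L ^ 3)) - C ≤
        ∑ p ∈ (SP (L ^ 3) w B).filter (fun p => p % 4 = 1), (2 : ℝ) / p := by
  classical
  obtain ⟨C1, hC1, h1⟩ := Pool.Agent.H912R3.LF.mertens_two
  obtain ⟨C2, hC2, h2⟩ := mertens_four
  obtain ⟨C3, hC3, L₀, h3⟩ := Pool.Agent.H912R3.LF.mertens_B A
  refine ⟨C2 + 2 * (C1 + C3), by positivity, max L₀ 4, fun L hL B hB w hw => ?_⟩
  have hL4 : (4 : ℝ) ≤ L := (le_max_right _ _).trans hL
  have h43 : (4 : ℝ) ≤ L ^ 3 := by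
    calc (4 : ℝ) ≤ L := hL4
      _ = L ^ 1 := (pow_one L).symm
      _ ≤ L ^ 3 := pow_le_pow_right₀ (by linarith) (by norm_num)
  have a1 := (h1 (L ^ 3) w h43 hw).2
  have a2 := h2 (L ^ 3) w h43 hw
  have a3 := h3 L ((le_max_left _ _).trans hL) B hB w hw
  have hsub : SP (L ^ 3) w B ⊆ SP (L ^ 3) w ∅ := by
    intro p hp
    simp only [SP, mem_filter, mem_Icc, notMem_empty, not_false_eq_true, and_true] at hp ⊢
    exact ⟨hp.1, hp.2.1, hp.2.2.1⟩
  have b1 : ∑ p ∈ SP (L ^ 3) w ∅ \ SP (L ^ 3) w B, (1 : ℝ) / p =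
      ∑ p ∈ SP (L ^ 3) w ∅, (1 : ℝ) / p - ∑ p ∈ SP (L ^ 3) w B, (1 : ℝ) / p := by
    rw [← sum_sdiff hsub]; ring
  have b2 : ∑ p ∈ (SP (L ^ 3) w ∅).filter (fun p => p % 4 = 1), (2 : ℝ) / p ≤
      ∑ p ∈ (SP (L ^ 3) w B).filter (fun p => p % 4 = 1), (2 : ℝ) / p +
        2 * ∑ p ∈ SP (L ^ 3) w ∅ \ SP (L ^ 3) w B, (1 : ℝ) / p := by
    have c1 : (SP (L ^ 3) w ∅).filter (fun p => p % 4 = 1) ⊆
        (SP (L ^ 3) w B).filter (fun p => p % 4 = 1) ∪ (SP (L ^ 3) w ∅ \ SP (L ^ 3) w B) := by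
      intro p hp
      rw [mem_filter] at hp
      rw [mem_union, mem_filter, Finset.mem_sdiff]
      by_cases h : p ∈ SP (L ^ 3) w B
      · exact Or.inl ⟨h, hp.2⟩
      · exact Or.inr ⟨hp.1, h⟩
    refine (Finset.sum_le_sum_of_subset_of_nonneg c1 (fun p _ _ => by positivity)).trans ?_
    refine (Pool.Agent.H912R3.LF.sum_union_le _ _ _ (fun p _ => by positivity)).trans ?_
    rw [mul_sum]
    apply add_le_add le_rfl
    apply sum_le_sum
    intro p _
    rw [mul_one_div]
  linarith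

end Pool.Agent.H912R3.GM
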