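import Pool.Agent.H912R3.LF.Greedy
import Pool.Agent.H912R3.GM.Mert4
import Pool.Agent.H426R3.SQ.C1e
import Pool.Agent.H426R3.SQ.Cnt

set_option autoImplicit false
set_option maxHeartbeats 4000000

/-! # Greedy choice of residue classes for sums of two squares -/

namespace Pool.Agent.H912R3.GM

open Finset Pool.Agent.H256R2.SC Pool.Agent.H256R2.SC.G3 Pool.Agent.H426R3.SQ

open scoped Classical

/-- Averaging over all classes modulo the primes of `S` (adapted from `H341R2.DG.greedy_abs`). -/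
theorem greedy_two {α : Type*} (hit : ℕ → ℕ → α → Prop) (good : ℕ → α → Prop)
    (hg : ∀ p x, good p x → ∃ c d, c < p ∧ d < p ∧ c ≠ d ∧ hit p c x ∧ hit p d x) (S : Finset ℕ)
    (hS : ∀ p ∈ S, 2 ≤ p) :
    ∀ R : Finset α, ∃ b : ℕ → ℕ, (∀ p ∈ S, b p < p) ∧
      ((R.filter (fun x => ∀ p ∈ S, ¬ hit p (b p) x)).card : ℝ) ≤
        ∑ x ∈ R, ∏ p ∈ S.filter (fun p => good p x), (1 - 2 / (p : ℝ)) := by
  induction S using Finset.induction_on with
  | empty => intro R; exact ⟨fun _ => 0, by simp, by simp⟩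
  | insert p S hpS ih =>
    intro R
    have ihP := ih (fun q hq => hS q (mem_insert_of_mem hq))
    have hp3 : 2 ≤ p := hS p (mem_insert_self _ _)
    have hp3' : (2 : ℝ) ≤ p := by exact_mod_cast hp3
    set w : α → ℝ := fun x => ∏ q ∈ S.filter (fun q => good q x), (1 - 2 / (q : ℝ)) with hw
    have hw0 : ∀ x, 0 ≤ w x := by
      intro x
      apply prod_nonneg
      intro q hq
      have h2 : (2 : ℝ) ≤ q := by exact_mod_cast hS q (mem_insert_of_mem (mem_filter.1 hq).1)
      have h3 : 2 / (q : ℝ) ≤ 1 := by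
        rw [div_le_one (by linarith)]; linarith
      linarith
    have hcard : ((range p).card : ℝ) = (p : ℝ) := by
      rw [card_range]
    have havg : ∃ c ∈ range p, ∑ x ∈ R.filter (fun x => ¬ hit p c x), w x ≤
        ∑ x ∈ R, ∏ q ∈ (insert p S).filter (fun q => good q x), (1 - 2 / (q : ℝ)) := by
      by_contra hcon
      push Not at hcon
      have hne : (range p).Nonempty := ⟨0, mem_range.2 (by omega)⟩
      have h1 := sum_lt_sum_of_nonempty hne hcon
      rw [sum_const, nsmul_eq_mul, hcard] at h1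
      have h2 : ∑ c ∈ range p, ∑ x ∈ R.filter (fun x => ¬ hit p c x), w x =
          ∑ x ∈ R, w x * (((range p).filter (fun c => ¬ hit p c x)).card : ℝ) := by
        simp_rw [sum_filter]
        rw [sum_comm]
        refine sum_congr rfl fun x _ => ?_
        rw [← sum_filter, sum_const, nsmul_eq_mul, mul_comm]
      rw [h2] at h1
      have h3 : ∀ x ∈ R, w x * (((range p).filter (fun c => ¬ hit p c x)).card : ℝ) ≤
          (p : ℝ) *
            ∏ q ∈ (insert p S).filter (fun q => good q x), (1 - 2 / (q : ℝ)) := by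
        intro x _
        rw [filter_insert]
        by_cases hgx : good p x
        · rw [if_pos hgx, prod_insert (by simp [hpS])]
          obtain ⟨c, c', hc2, hc2', hcc, hc3, hc3'⟩ := hg p x hgx
          have h4 : (range p).filter (fun c => ¬ hit p c x) ⊆ ((range p).erase c).erase c' := by
            intro d hd
            rw [mem_filter] at hd
            rw [mem_erase, mem_erase]
            exact ⟨fun h => hd.2 (h ▸ hc3'), fun h => hd.2 (h ▸ hc3), hd.1⟩
          have h5 := card_le_card h4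
          rw [card_erase_of_mem (mem_erase.2 ⟨hcc.symm, mem_range.2 hc2'⟩),
            card_erase_of_mem (mem_range.2 hc2), card_range] at h5
          have h6 : ((((range p).filter (fun c => ¬ hit p c x)).card : ℕ) : ℝ) ≤
              (p : ℝ) - 2 := by
            have h8 : ((((range p).filter (fun c => ¬ hit p c x)).card : ℕ) : ℝ) ≤
              ((p - 1 - 1 : ℕ) : ℝ) := by exact_mod_cast h5
            have h9 : ((p - 1 - 1 : ℕ) : ℝ) = (p : ℝ) - 2 := by
              rw [Nat.sub_sub, Nat.cast_sub (by omega)]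
              norm_num
            linarith
          have h7 : (p : ℝ) * ((1 - 2 / (p : ℝ)) * w x) = w x * ((p : ℝ) - 2) := by
            have : (p : ℝ) ≠ 0 := by linarith
            field_simp
          change _ ≤ (p : ℝ) * ((1 - 2 / (p : ℝ)) * w x)
          rw [h7]
          exact mul_le_mul_of_nonneg_left h6 (hw0 x)
        · rw [if_neg hgx]
          change _ ≤ (p : ℝ) * w x
          rw [mul_comm]
          refine mul_le_mul_of_nonneg_right ?_ (hw0 x)
          rw [← hcard]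
          exact_mod_cast card_filter_le _ _
      have h4 := sum_le_sum h3
      rw [← mul_sum] at h4
      linarith
    obtain ⟨c, hc, hle⟩ := havg
    rw [mem_range] at hc
    obtain ⟨b, hb, hbc⟩ := ihP (R.filter (fun x => ¬ hit p c x))
    refine ⟨Function.update b p c, ?_, ?_⟩
    · intro q hq
      rcases mem_insert.1 hq with rfl | hq
      · rw [Function.update_self]; exact hc
      · have : q ≠ p := fun h => hpS (h ▸ hq)
        rw [Function.update_of_ne this]
        exact hb q hq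
    · have h8 : R.filter (fun x => ∀ q ∈ insert p S, ¬ hit q (Function.update b p c q) x) ⊆
          (R.filter (fun x => ¬ hit p c x)).filter (fun x => ∀ q ∈ S, ¬ hit q (b q) x) := by
        intro x hx
        rw [mem_filter] at hx
        rw [mem_filter, mem_filter]
        refine ⟨⟨hx.1, ?_⟩, ?_⟩
        · have := hx.2 p (mem_insert_self _ _)
          rwa [Function.update_self] at this
        · intro q hq
          have h9 : q ≠ p := fun h => hpS (h ▸ hq)
          have := hx.2 q (mem_insert_of_mem hq)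
          rwa [Function.update_of_ne h9] at this
      calc _ ≤ (((R.filter (fun x => ¬ hit p c x)).filter
              (fun x => ∀ q ∈ S, ¬ hit q (b q) x)).card : ℝ) := by
            exact_mod_cast card_le_card h8
        _ ≤ _ := hbc
        _ ≤ _ := hle

/-- a prime `1 mod 4` not dividing `b` divides two classes of values of `(c + a) ^ 2 + b ^ 2` -/
theorem two_roots {p b : ℕ} (hp : p.Prime) (h4 : p % 4 = 1) (hb : ¬ p ∣ b) (a : ℤ) :
    ∃ c d : ℕ, c < p ∧ d < p ∧ c ≠ d ∧ (p : ℤ) ∣ ((c : ℤ) + a) ^ 2 + (b : ℤ) ^ 2 ∧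
      (p : ℤ) ∣ ((d : ℤ) + a) ^ 2 + (b : ℤ) ^ 2 := by
  haveI : Fact p.Prime := ⟨hp⟩
  obtain ⟨y, hy⟩ := (ZMod.exists_sq_eq_neg_one_iff (p := p)).2 (by omega)
  have hp0 : (0 : ℤ) < p := by exact_mod_cast hp.pos
  have hpi : Prime (p : ℤ) := Nat.prime_iff_prime_int.1 hp
  set u : ℤ := (y.val : ℤ) * b with hu
  have hu1 : (p : ℤ) ∣ u ^ 2 + (b : ℤ) ^ 2 := by
    rw [← ZMod.intCast_zmod_eq_zero_iff_dvd, hu]
    push_cast
    rw [ZMod.natCast_zmod_val]
    have : (y * b : ZMod p) ^ 2 + (b : ZMod p) ^ 2 = (y * y + 1) * (b : ZMod p) ^ 2 := by ring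
    rw [this, ← hy]
    ring
  have hu2 : ¬ (p : ℤ) ∣ 2 * u := by
    intro h
    rcases hpi.dvd_or_dvd h with h1 | h1
    · have h2 : p ∣ 2 := by exact_mod_cast h1
      have := Nat.le_of_dvd (by norm_num) h2
      have := hp.two_le
      omega
    · have h2 : (p : ℤ) ∣ (b : ℤ) ^ 2 := by
        have h3 := (h1.mul_right u)
        rw [← sq] at h3
        exact (dvd_add_right h3).1 hu1
      exact hb (by exact_mod_cast hpi.dvd_of_dvd_pow h2)
  have key : ∀ v : ℤ, (p : ℤ) ∣ v ^ 2 + (b : ℤ) ^ 2 → ∃ c : ℕ, c < p ∧ (p : ℤ) ∣ (c : ℤ) - (v - a) ∧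
      (p : ℤ) ∣ ((c : ℤ) + a) ^ 2 + (b : ℤ) ^ 2 := by
    intro v hv
    refine ⟨((v - a) % (p : ℤ)).toNat, ?_, ?_, ?_⟩
    · have h1 := Int.emod_lt_of_pos (v - a) hp0
      have h2 := Int.emod_nonneg (v - a) hp0.ne'
      omega
    · rw [Int.toNat_of_nonneg (Int.emod_nonneg _ hp0.ne')]
      exact (Int.modEq_iff_dvd.1 (Int.mod_modEq (v - a) p).symm)
    · rw [Int.toNat_of_nonneg (Int.emod_nonneg _ hp0.ne')]
      have h1 : (p : ℤ) ∣ (v - a) % (p : ℤ) - (v - a) :=
        (Int.modEq_iff_dvd.1 (Int.mod_modEq (v - a) p).symm)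
      have h2 : (p : ℤ) ∣ ((v - a) % (p : ℤ) + a) - v := by
        have e : ((v - a) % (p : ℤ) + a) - v = (v - a) % (p : ℤ) - (v - a) := by ring
        rwa [e]
      exact (Pool.Agent.H426R3.SQ.C1e_congr _ _ _ _ h2).2 hv
  obtain ⟨c, hc1, hc2, hc3⟩ := key u hu1
  obtain ⟨d, hd1, hd2, hd3⟩ := key (-u) (by rwa [neg_sq])
  refine ⟨c, d, hc1, hd1, ?_, hc3, hd3⟩
  rintro rfl
  apply hu2
  have := dvd_sub hd2 hc2
  have e : ((c : ℤ) - (-u - a)) - ((c : ℤ) - (u - a)) = 2 * u := by ring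
  rwa [e] at this

theorem rho_ge_two {p b : ℕ} (hp : p.Prime) (h4 : p % 4 = 1) (hb : ¬ p ∣ b) :
    2 ≤ Pool.Agent.H426R3.SQ.rho ((b : ℤ) ^ 2) p := by
  obtain ⟨c, d, h1, h2, h3, h5, h6⟩ := two_roots hp h4 hb 0
  rw [add_zero] at h5 h6
  unfold Pool.Agent.H426R3.SQ.rho
  have : ({c, d} : Finset ℕ) ⊆
      (Finset.range p).filter (fun x : ℕ => (p : ℤ) ∣ (x : ℤ) ^ 2 + (b : ℤ) ^ 2) := by
    intro x hx
    rw [mem_insert, mem_singleton] at hx
    rw [mem_filter, mem_range]
    rcases hx with rfl | rfl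
    · exact ⟨h1, h5⟩
    · exact ⟨h2, h6⟩
  calc 2 = ({c, d} : Finset ℕ).card := (card_pair h3).symm
    _ ≤ _ := card_le_card this

/-- the survivors of a good choice of classes modulo the primes up to `N` -/
theorem survivors_two : ∃ C : ℝ, 0 < C ∧ ∀ N : ℕ, 4 ≤ N → ∀ F : Finset (ℤ × ℕ),
    (∀ x ∈ F, 1 ≤ x.2) →
    ∃ b : ℕ → ℕ, (∀ p ∈ (Icc 1 N).filter Nat.Prime, b p < p) ∧
      ((F.filter (fun x => ∀ p ∈ (Icc 1 N).filter Nat.Prime,
        ¬ (p : ℤ) ∣ ((b p : ℤ) + x.1) ^ 2 + (x.2 : ℤ) ^ 2)).card : ℝ) ≤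
        C / Real.log N * ∑ x ∈ F, ((x.2 : ℝ) / Nat.totient x.2) ^ 2 := by
  obtain ⟨C, hC0, hC⟩ := mertens_four
  refine ⟨Real.exp (Real.log (Real.log 4) + C), Real.exp_pos _, fun N hN F hF => ?_⟩
  obtain ⟨b, hb1, hb2⟩ := greedy_two (fun p c (x : ℤ × ℕ) => (p : ℤ) ∣ ((c : ℤ) + x.1) ^ 2 + (x.2 : ℤ) ^ 2)
    (fun p x => p.Prime ∧ p % 4 = 1 ∧ ¬ p ∣ x.2) (by
      rintro p x ⟨hp, hp4, hpx⟩
      exact two_roots hp hp4 hpx x.1)
    ((Icc 1 N).filter Nat.Prime) (fun p hp => (mem_filter.1 hp).2.two_le) F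
  refine ⟨b, hb1, ?_⟩
  refine le_trans (b := ∑ x ∈ F, ∏ p ∈ ((Icc 1 N).filter Nat.Prime).filter
    (fun p => p.Prime ∧ p % 4 = 1 ∧ ¬ p ∣ x.2), (1 - 2 / (p : ℝ)))
    (le_trans (le_of_eq (by congr!)) (le_trans hb2 (le_of_eq (by congr!)))) ?_
  rw [mul_sum]
  apply sum_le_sum
  intro x hx
  have hx1 := hF x hx
  have hN4 : (4 : ℝ) ≤ N := by exact_mod_cast hN
  have hlN : 0 < Real.log N := Real.log_pos (by linarith)
  have hl4 : 0 < Real.log 4 := Real.log_pos (by norm_num)
  have h1 := hC 4 N le_rfl hN4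
  have hφ : 0 < (Nat.totient x.2 : ℝ) := by exact_mod_cast Nat.totient_pos.2 (by omega : 0 < x.2)
  have hx0 : (0 : ℝ) < x.2 := by exact_mod_cast hx1
  have h2 : Real.exp (∑ p ∈ x.2.primeFactors, (1 : ℝ) / p) ≤ (x.2 : ℝ) / Nat.totient x.2 := by
    rw [le_div_iff₀ hφ]
    have h3 : (Nat.totient x.2 : ℝ) = x.2 * ∏ p ∈ x.2.primeFactors, (1 - 1 / (p : ℝ)) := by
      rw [← totient_div x.2 (by omega)]
      field_simp
    have h4 : ∏ p ∈ x.2.primeFactors, (1 - 1 / (p : ℝ)) ≤
        Real.exp (-∑ p ∈ x.2.primeFactors, (1 : ℝ) / p) := by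
      rw [← sum_neg_distrib, Real.exp_sum]
      apply prod_le_prod
      · intro p hp
        have h5 : (2 : ℝ) ≤ p := by exact_mod_cast (Nat.prime_of_mem_primeFactors hp).two_le
        have : 1 / (p : ℝ) ≤ 1 := by rw [div_le_one (by linarith)]; linarith
        linarith
      · intro p _
        have := Real.add_one_le_exp (-(1 / (p : ℝ)))
        linarith
    rw [h3]
    calc Real.exp (∑ p ∈ x.2.primeFactors, (1 : ℝ) / p) *
          (x.2 * ∏ p ∈ x.2.primeFactors, (1 - 1 / (p : ℝ))) ≤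
          Real.exp (∑ p ∈ x.2.primeFactors, (1 : ℝ) / p) *
          (x.2 * Real.exp (-∑ p ∈ x.2.primeFactors, (1 : ℝ) / p)) := by gcongr
      _ = x.2 := by
          rw [Real.exp_neg]
          field_simp
  have h5 : ∏ p ∈ ((Icc 1 N).filter Nat.Prime).filter
      (fun p => p.Prime ∧ p % 4 = 1 ∧ ¬ p ∣ x.2), (1 - 2 / (p : ℝ)) ≤
      Real.exp (-∑ p ∈ ((Icc 1 N).filter Nat.Prime).filter
      (fun p => p.Prime ∧ p % 4 = 1 ∧ ¬ p ∣ x.2), (2 : ℝ) / p) := by
    rw [← sum_neg_distrib, Real.exp_sum]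
    apply prod_le_prod
    · intro p hp
      have h5 : (2 : ℝ) ≤ p := by exact_mod_cast (mem_filter.1 hp).2.1.two_le
      have : 2 / (p : ℝ) ≤ 1 := by rw [div_le_one (by linarith)]; linarith
      linarith
    · intro p _
      have := Real.add_one_le_exp (-(2 / (p : ℝ)))
      linarith
  have h6 : ∑ p ∈ (SP 4 N ∅).filter (fun p => p % 4 = 1), (2 : ℝ) / p ≤
      ∑ p ∈ ((Icc 1 N).filter Nat.Prime).filter
      (fun p => p.Prime ∧ p % 4 = 1 ∧ ¬ p ∣ x.2), (2 : ℝ) / p +
      2 * ∑ p ∈ x.2.primeFactors, (1 : ℝ) / p := by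
    have c1 : (SP 4 N ∅).filter (fun p => p % 4 = 1) ⊆
        ((Icc 1 N).filter Nat.Prime).filter
      (fun p => p.Prime ∧ p % 4 = 1 ∧ ¬ p ∣ x.2) ∪ x.2.primeFactors := by
      intro p hp
      simp only [SP, mem_filter, mem_Icc, notMem_empty, not_false_eq_true, and_true,
        Nat.floor_natCast] at hp
      rw [mem_union, mem_filter, mem_filter, mem_Icc, Nat.mem_primeFactors]
      by_cases h : p ∣ x.2
      · exact Or.inr ⟨hp.1.2.1, h, by omega⟩
      · exact Or.inl ⟨⟨hp.1.1, hp.1.2.1⟩, hp.1.2.1, hp.2, h⟩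
    refine (Finset.sum_le_sum_of_subset_of_nonneg c1 (fun p _ _ => by positivity)).trans ?_
    refine (Pool.Agent.H912R3.LF.sum_union_le _ _ _ (fun p _ => by positivity)).trans ?_
    rw [mul_sum]
    apply add_le_add le_rfl
    apply sum_le_sum
    intro p _
    rw [mul_one_div]
  calc _ ≤ _ := h5
    _ ≤ Real.exp ((Real.log (Real.log 4) + C) - Real.log (Real.log N) +
          2 * ∑ p ∈ x.2.primeFactors, (1 : ℝ) / p) := by
        apply Real.exp_le_exp.2
        linarith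
    _ = Real.exp (Real.log (Real.log 4) + C) / Real.log N *
          (Real.exp (∑ p ∈ x.2.primeFactors, (1 : ℝ) / p)) ^ 2 := by
        rw [Real.exp_add, Real.exp_sub, Real.exp_log hlN, ← Real.exp_nat_mul]
        norm_num
    _ ≤ _ := by
        gcongr

end Pool.Agent.H912R3.GM
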